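import Pool.Agent.Helper4.CI.Goals
import Pool.Agent.Helper20.Mono.Crd

/-! Packet P3: comparison of the dual cones in `ℝ^N` and in `ℝ^(N+k)`. -/

namespace Mono.CI.H26P3

open Finset Filter Topology Mono

variable {n : ℕ}

theorem NA_le {A : Finset (Fin n → ℤ)} (a : Fin n → ℤ) {v : Fin n → ℤ} (hv : v ∈ A) :
    NA A a ≤ a ⬝ᵥ v := by
  unfold NA
  refine csInf_le ?_ ⟨v, hv, rfl⟩
  have hfin : {z : ℤ | ∃ v ∈ A, z = a ⬝ᵥ v}.Finite := by
    have : {z : ℤ | ∃ v ∈ A, z = a ⬝ᵥ v} = (fun v => a ⬝ᵥ v) '' (A : Set (Fin n → ℤ)) := by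
      ext z
      constructor
      · rintro ⟨v, hv, rfl⟩
        exact ⟨v, hv, rfl⟩
      · rintro ⟨v, hv, rfl⟩
        exact ⟨v, hv, rfl⟩
    rw [this]
    exact A.finite_toSet.image _
  exact hfin.bddBelow

theorem NA_eq {A : Finset (Fin n → ℤ)} {a : Fin n → ℤ} {v : Fin n → ℤ} (hv : v ∈ A)
    (h : ∀ v' ∈ A, a ⬝ᵥ v ≤ a ⬝ᵥ v') : NA A a = a ⬝ᵥ v := by
  apply le_antisymm (NA_le a hv)
  unfold NA
  refine le_csInf ⟨_, v, hv, rfl⟩ ?_
  rintro z ⟨v', hv', rfl⟩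
  exact h v' hv'

theorem NA_ex {A : Finset (Fin n → ℤ)} (hA : A.Nonempty) (a : Fin n → ℤ) :
    ∃ v ∈ A, NA A a = a ⬝ᵥ v := by
  obtain ⟨v, hv, hm⟩ := A.exists_min_image (fun v => a ⬝ᵥ v) hA
  exact ⟨v, hv, NA_eq hv hm⟩

theorem toR_dot (u v : Fin n → ℤ) : toR u ⬝ᵥ toR v = ((u ⬝ᵥ v : ℤ) : ℝ) := by
  simp [dotProduct, toR]

theorem opn_crd {δ : Finset (Fin n → ℤ)} (hδ : Indep δ) {x : Fin n → ℤ} (hx : x ∈ opn δ) :
    (∀ a ∈ δ, 0 < crd δ (toR x) a) ∧ toR x = ∑ a ∈ δ, crd δ (toR x) a • toR a := by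
  obtain ⟨c, hc, he⟩ := hx
  have h1 : ∀ a ∈ δ, crd δ (toR x) a = c a := fun a ha => crd_eq hδ he ha
  refine ⟨fun a ha => by rw [h1 a ha]; exact hc a ha, ?_⟩
  conv_lhs => rw [he]
  exact Finset.sum_congr rfl fun a ha => by rw [h1 a ha]

theorem dot_opn {δ : Finset (Fin n → ℤ)} (hδ : Indep δ) {x : Fin n → ℤ} (hx : x ∈ opn δ)
    (v : Fin n → ℤ) :
    ((x ⬝ᵥ v : ℤ) : ℝ) = ∑ a ∈ δ, crd δ (toR x) a * ((a ⬝ᵥ v : ℤ) : ℝ) := by
  rw [← toR_dot]
  conv_lhs => rw [(opn_crd hδ hx).2]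
  rw [sum_dotProduct]
  refine Finset.sum_congr rfl fun a _ => ?_
  rw [smul_dotProduct, smul_eq_mul, toR_dot]

theorem face_indep {T : Fan n} {δ : Finset (Fin n → ℤ)} (hδ : δ ∈ T.faces) : Indep δ :=
  Fan.IsFace.indep T ((Fan.mem_faces T).1 hδ)

theorem NA_opn {T : Fan n} {A : Finset (Fin n → ℤ)} (hT : Adapted A T) {δ : Finset (Fin n → ℤ)}
    (hδ : δ ∈ T.faces) {x : Fin n → ℤ} (hx : x ∈ opn δ) :
    (NA A x : ℝ) = ∑ a ∈ δ, crd δ (toR x) a * (NA A a : ℝ) := by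
  obtain ⟨F, hF, hsub⟩ := (Fan.mem_faces T).1 hδ
  obtain ⟨v, hv, hva⟩ := hT F hF
  have hi := face_indep hδ
  have hpos := (opn_crd hi hx).1
  have h1 : NA A x = x ⬝ᵥ v := by
    refine NA_eq hv fun v' hv' => ?_
    have h2 : ((x ⬝ᵥ v : ℤ) : ℝ) ≤ ((x ⬝ᵥ v' : ℤ) : ℝ) := by
      rw [dot_opn hi hx, dot_opn hi hx]
      refine Finset.sum_le_sum fun a ha => ?_
      refine mul_le_mul_of_nonneg_left ?_ (hpos a ha).le
      rw [hva a (hsub ha)]
      exact_mod_cast NA_le a hv'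
    exact_mod_cast h2
  rw [h1, dot_opn hi hx]
  exact Finset.sum_congr rfl fun a ha => by rw [hva a (hsub ha)]

theorem exists_opn (T : Fan n) {x : Fin n → ℤ} (hx : ∀ i, 0 ≤ x i) : ∃ δ ∈ T.faces, x ∈ opn δ := by
  classical
  obtain ⟨F, hF, hc⟩ := T.cover (toR x) (fun i => by rw [toR_apply]; exact_mod_cast hx i)
  refine ⟨F.filter (fun u => 0 < crd F (toR x) u), ?_, crd F (toR x), ?_, ?_⟩
  · rw [Fan.mem_faces]
    exact ⟨F, hF, Finset.filter_subset _ _⟩
  · intro a ha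
    exact (Finset.mem_filter.1 ha).2
  · conv_lhs => rw [← sum_crd (T.mx_indep F hF) (T.mx_card F hF) (toR x)]
    rw [Finset.sum_filter]
    refine Finset.sum_congr rfl fun a _ => ?_
    by_cases h : 0 < crd F (toR x) a
    · rw [if_pos h]
    · rw [if_neg h]
      have : crd F (toR x) a = 0 := le_antisymm (not_lt.1 h) (hc a)
      rw [this, zero_smul]

theorem crd_of_sub {F δ : Finset (Fin n → ℤ)} (hF : Indep F) (hs : δ ⊆ F) {x : Fin n → ℤ}
    (hx : x ∈ opn δ) (u : Fin n → ℤ) :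
    crd F (toR x) u = crd δ (toR x) u := by
  classical
  have hi := hF.subset hs
  have h2 := (opn_crd hi hx).2
  by_cases hu : u ∈ F
  · refine crd_eq hF ?_ hu
    conv_lhs => rw [h2]
    refine Finset.sum_subset hs fun a _ ha => ?_
    rw [crd_of_notMem δ _ ha, zero_smul]
  · rw [crd_of_notMem F _ hu, crd_of_notMem δ _ (fun h => hu (hs h))]

theorem opn_nonneg {F δ : Finset (Fin n → ℤ)} (hF : Indep F) (hs : δ ⊆ F) {x : Fin n → ℤ}
    (hx : x ∈ opn δ) (u : Fin n → ℤ) : 0 ≤ crd F (toR x) u := by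
  rw [crd_of_sub hF hs hx]
  by_cases hu : u ∈ δ
  · exact ((opn_crd (hF.subset hs) hx).1 u hu).le
  · rw [crd_of_notMem δ _ hu]

theorem opn_disj {T : Fan n} {δ δ' : Finset (Fin n → ℤ)} (hδ : δ ∈ T.faces) (hδ' : δ' ∈ T.faces)
    {x : Fin n → ℤ} (hx : x ∈ opn δ) (hx' : x ∈ opn δ') : δ = δ' := by
  have key : ∀ δ ∈ T.faces, ∀ δ' ∈ T.faces, x ∈ opn δ → x ∈ opn δ' → δ ⊆ δ' := by
    intro δ hδ δ' hδ' hx hx' a ha
    obtain ⟨F, hF, hs⟩ := (Fan.mem_faces T).1 hδ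
    obtain ⟨F', hF', hs'⟩ := (Fan.mem_faces T).1 hδ'
    have hFi := T.mx_indep F hF
    have hFi' := T.mx_indep F' hF'
    have hpos := (opn_crd (hFi.subset hs) hx).1
    have hsub : δ ⊆ F' := by
      intro b hb
      by_contra hb'
      have h1 := T.inter F hF F' hF' (toR x) (opn_nonneg hFi hs hx) (opn_nonneg hFi' hs' hx') b hb'
      rw [crd_of_sub hFi hs hx] at h1
      exact absurd h1 (hpos b hb).ne'
    have h1 := crd_of_sub hFi' hsub hx a
    have h2 := crd_of_sub hFi' hs' hx' a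
    by_contra hc
    rw [h1, crd_of_notMem δ' _ hc] at h2
    exact absurd h2 (hpos a ha).ne'
  exact Finset.Subset.antisymm (key δ hδ δ' hδ' hx hx') (key δ' hδ' δ hδ hx' hx)

theorem opn_ge {T : Fan n} {δ : Finset (Fin n → ℤ)} (hδ : δ ∈ T.faces)
    {x : Fin n → ℤ} (hx : x ∈ opn δ) (i : Fin n) : 0 ≤ x i := by
  have hi := face_indep hδ
  have h1 := congrFun (opn_crd hi hx).2 i
  rw [toR_apply, Finset.sum_apply] at h1
  have h2 : (0 : ℝ) ≤ (x i : ℝ) := by
    rw [h1]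
    refine Finset.sum_nonneg fun a ha => ?_
    rw [Pi.smul_apply, smul_eq_mul, toR_apply]
    refine mul_nonneg ((opn_crd hi hx).1 a ha).le ?_
    exact_mod_cast T.vert_nonneg a (Fan.IsFace.subset_vert T ((Fan.mem_faces T).1 hδ) ha) i
  exact_mod_cast h2

/-- The cones of `T` in a dual cone. -/
def InD {ι : Type} (B : ι → Finset (Fin n → ℤ)) (v : ι → (Fin n → ℤ)) (δ : Finset (Fin n → ℤ)) :
    Prop := ∀ a ∈ δ, ∀ i, a ⬝ᵥ v i = NA (B i) a

/-- The integer points of a dual cone. -/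
def SS {ι : Type} (B : ι → Finset (Fin n → ℤ)) (v : ι → (Fin n → ℤ)) : Set (Fin n → ℤ) :=
  {x | (∀ i, 0 ≤ x i) ∧ ∀ i, x ⬝ᵥ v i = NA (B i) x}

theorem mem_SS {T : Fan n} {ι : Type} {B : ι → Finset (Fin n → ℤ)} {v : ι → (Fin n → ℤ)}
    (hB : ∀ i, Adapted (B i) T) (hv : ∀ i, v i ∈ B i) (x : Fin n → ℤ) :
    x ∈ SS B v ↔ ∃ δ ∈ T.faces, InD B v δ ∧ x ∈ opn δ := by
  constructor
  · rintro ⟨h0, h1⟩
    obtain ⟨δ, hδ, hx⟩ := exists_opn T h0
    refine ⟨δ, hδ, ?_, hx⟩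
    have hi := face_indep hδ
    intro a ha i
    have e1 := dot_opn hi hx (v i)
    rw [h1 i, NA_opn (hB i) hδ hx] at e1
    have e2 : ∑ a ∈ δ, crd δ (toR x) a * (((a ⬝ᵥ v i : ℤ) : ℝ) - (NA (B i) a : ℝ)) = 0 := by
      simp only [mul_sub]
      rw [Finset.sum_sub_distrib, ← e1, sub_self]
    rw [Finset.sum_eq_zero_iff_of_nonneg] at e2
    · have e3 := e2 a ha
      have hp := (opn_crd hi hx).1 a ha
      have e4 : ((a ⬝ᵥ v i : ℤ) : ℝ) - (NA (B i) a : ℝ) = 0 := by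
        rcases mul_eq_zero.1 e3 with h | h
        · exact absurd h hp.ne'
        · exact h
      have e5 : ((a ⬝ᵥ v i : ℤ) : ℝ) = (NA (B i) a : ℝ) := by linarith
      exact_mod_cast e5
    · intro b hb
      refine mul_nonneg ((opn_crd hi hx).1 b hb).le ?_
      rw [sub_nonneg]
      exact_mod_cast NA_le b (hv i)
  · rintro ⟨δ, hδ, hD, hx⟩
    refine ⟨opn_ge hδ hx, fun i => ?_⟩
    have e1 : ((x ⬝ᵥ v i : ℤ) : ℝ) = (NA (B i) x : ℝ) := by
      rw [dot_opn (face_indep hδ) hx, NA_opn (hB i) hδ hx]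
      exact Finset.sum_congr rfl fun a ha => by rw [hD a ha i]
    exact_mod_cast e1

open Classical in
theorem gen (h : ConeSum) (T : Fan n) {ι : Type} (B : ι → Finset (Fin n → ℤ))
    (v : ι → (Fin n → ℤ)) (hB : ∀ i, Adapted (B i) T) (hv : ∀ i, v i ∈ B i)
    (f : (Fin n → ℤ) → ℝ) (l : ℕ)
    (hcard : ∀ δ ∈ T.faces, InD B v δ → δ.card ≤ l)
    (hpos : ∀ δ ∈ T.faces, InD B v δ → ∀ a ∈ δ, 0 < f a)
    (hlin : ∀ δ ∈ T.faces, ∀ x ∈ opn δ, f x = ∑ a ∈ δ, crd δ (toR x) a * f a) :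
    Tendsto (fun ε : ℝ => ε ^ l * ∑' x : SS B v, Real.exp (-(ε * f x.1))) (𝓝[>] 0)
    (𝓝 (∑ δ ∈ T.faces.filter (fun δ => InD B v δ ∧ δ.card = l),
      (idx (δ : Set (Fin n → ℤ)) : ℝ) / ∏ a ∈ δ, f a)) := by
  have h1 := h n (T.faces.filter (fun δ => InD B v δ)) f l (SS B v) ?_ ?_ ?_ ?_
  · rw [Finset.filter_filter] at h1
    exact h1
  · intro δ hδ
    rw [Finset.mem_filter] at hδ
    exact ⟨face_indep hδ.1, hcard δ hδ.1 hδ.2, hpos δ hδ.1 hδ.2⟩
  · intro x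
    rw [mem_SS hB hv]
    constructor
    · rintro ⟨δ, h1, h2, h3⟩
      exact ⟨δ, Finset.mem_filter.2 ⟨h1, h2⟩, h3⟩
    · rintro ⟨δ, h1, h2⟩
      rw [Finset.mem_filter] at h1
      exact ⟨δ, h1.1, h1.2, h2⟩
  · intro δ hδ δ' hδ' x hx hx'
    rw [Finset.mem_filter] at hδ hδ'
    exact opn_disj hδ.1 hδ'.1 hx hx'
  · intro δ hδ x hx
    rw [Finset.mem_filter] at hδ
    exact hlin δ hδ.1 x hx

/-- An independent set and a set orthogonal to it. -/
theorem card_add_le {δ : Finset (Fin n → ℤ)} (hδ : Indep δ) (E : Submodule ℝ (Fin n → ℝ))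
    (hE : ∀ x ∈ E, ∀ a ∈ δ, toR a ⬝ᵥ x = 0) : δ.card + Module.finrank ℝ E ≤ n := by
  classical
  let M : Matrix δ (Fin n) ℝ := fun a i => toR a.1 i
  have hr : M.rank = δ.card := by
    have := LinearIndependent.rank_matrix (M := M) (by exact hδ)
    rw [this, Fintype.card_coe]
  have h1 := LinearMap.finrank_range_add_finrank_ker M.mulVecLin
  have h2 : Module.finrank ℝ E ≤ Module.finrank ℝ (LinearMap.ker M.mulVecLin) := by
    refine Submodule.finrank_mono fun x hx => ?_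
    rw [LinearMap.mem_ker]
    funext a
    rw [Matrix.mulVecLin_apply]
    exact hE x hx a.1 a.2
  have h3 : Module.finrank ℝ (LinearMap.range M.mulVecLin) = δ.card := by
    rw [← hr]; rfl
  rw [h3, Module.finrank_fin_fun] at h1
  omega

/-- The differences of an independent set. -/
theorem card_le_diff {τ : Finset (Fin n → ℤ)} (hτ : Indep τ) {u₀ : Fin n → ℤ} :
    τ.card ≤ Module.finrank ℝ (Submodule.span ℝ {x : Fin n → ℝ | ∃ u ∈ τ, x = toR u - toR u₀})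
      + 1 := by
  classical
  have h1 : Module.finrank ℝ (Submodule.span ℝ (Set.range fun u : τ => toR u.1)) = τ.card := by
    rw [finrank_span_eq_card hτ, Fintype.card_coe]
  have h2 : Submodule.span ℝ (Set.range fun u : τ => toR u.1) ≤
      Submodule.span ℝ {x : Fin n → ℝ | ∃ u ∈ τ, x = toR u - toR u₀} ⊔
        Submodule.span ℝ {toR u₀} := by
    rw [Submodule.span_le]
    rintro _ ⟨u, rfl⟩
    have e : toR u.1 = (toR u.1 - toR u₀) + toR u₀ := by abel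
    show toR u.1 ∈ _
    rw [e]
    refine Submodule.add_mem_sup (Submodule.subset_span ⟨u.1, u.2, rfl⟩)
      (Submodule.subset_span rfl)
  have h3 := Submodule.finrank_mono h2
  have h4 := Submodule.finrank_add_le_finrank_add_finrank
    (Submodule.span ℝ {x : Fin n → ℝ | ∃ u ∈ τ, x = toR u - toR u₀})
    (Submodule.span ℝ {toR u₀})
  have h5 : Module.finrank ℝ (Submodule.span ℝ {toR u₀}) ≤ 1 := by
    have := finrank_span_le_card (R := ℝ) ({toR u₀} : Set (Fin n → ℝ))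
    simpa using this
  omega

variable {N k : ℕ}

theorem lift_cast (c : Option (Fin k)) (u : Fin N → ℤ) (i : Fin N) :
    lift c u (Fin.castAdd k i) = u i := by
  simp [lift]

theorem lift_nat (c : Option (Fin k)) (u : Fin N → ℤ) (j : Fin k) :
    lift c u (Fin.natAdd N j) = ind c j := by
  simp [lift]

theorem ind_inj {c c' : Option (Fin k)} (h : ind c = ind c') : c = c' := by
  cases c with
  | none =>
    cases c' with
    | none => rfl
    | some j =>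
      have := congrFun h j
      simp [ind] at this
  | some i =>
    have := congrFun h i
    by_contra hne
    have : ind c' i = 0 := by
      unfold ind
      rw [if_neg]
      exact fun e => hne e.symm
    simp [ind] at *
    tauto

theorem lift_inj {c c' : Option (Fin k)} {u u' : Fin N → ℤ} (h : lift c u = lift c' u') :
    c = c' ∧ u = u' := by
  constructor
  · apply ind_inj
    funext j
    have := congrFun h (Fin.natAdd N j)
    rwa [lift_nat, lift_nat] at this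
  · funext i
    have := congrFun h (Fin.castAdd k i)
    rwa [lift_cast, lift_cast] at this

theorem mem_cay {A : Option (Fin k) → Finset (Fin N → ℤ)} {v : Fin (N + k) → ℤ} :
    v ∈ cay A univ ↔ ∃ c, ∃ u ∈ A c, v = lift c u := by
  unfold cay
  simp only [Finset.mem_biUnion, Finset.mem_univ, true_and, Finset.mem_image]
  constructor
  · rintro ⟨c, u, hu, rfl⟩
    exact ⟨c, u, hu, rfl⟩
  · rintro ⟨c, u, hu, rfl⟩
    exact ⟨c, u, hu, rfl⟩

theorem mem_scay {A : Option (Fin k) → Finset (Fin N → ℤ)} {L : ℕ} {v : Fin (N + k) → ℤ} :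
    v ∈ scay A L ↔ (∃ t ∈ A none, v = lift none ((L : ℤ) • t)) ∨
      ∃ j, ∃ t ∈ A (some j), v = lift (some j) t := by
  unfold scay
  simp only [Finset.mem_union, Finset.mem_biUnion, Finset.mem_univ, true_and, Finset.mem_image]
  constructor
  · rintro (⟨u, hu, rfl⟩ | ⟨c, u, hu, rfl⟩)
    · exact Or.inl ⟨u, hu, rfl⟩
    · exact Or.inr ⟨c, u, hu, rfl⟩
  · rintro (⟨u, hu, rfl⟩ | ⟨c, u, hu, rfl⟩)
    · exact Or.inl ⟨u, hu, rfl⟩
    · exact Or.inr ⟨c, u, hu, rfl⟩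

theorem dot_lift (y : Fin (N + k) → ℤ) (c : Option (Fin k)) (u : Fin N → ℤ) :
    y ⬝ᵥ lift c u = base y ⬝ᵥ u + ∑ j, y (Fin.natAdd N j) * ind c j := by
  unfold dotProduct
  rw [Fin.sum_univ_add]
  congr 1
  · refine Finset.sum_congr rfl fun i _ => ?_
    rw [lift_cast]; rfl
  · refine Finset.sum_congr rfl fun i _ => ?_
    rw [lift_nat]

theorem dot_lift_none (y : Fin (N + k) → ℤ) (u : Fin N → ℤ) :
    y ⬝ᵥ lift none u = base y ⬝ᵥ u := by
  rw [dot_lift]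
  simp [ind]

theorem dot_lift_some (y : Fin (N + k) → ℤ) (j : Fin k) (u : Fin N → ℤ) :
    y ⬝ᵥ lift (some j) u = base y ⬝ᵥ u + y (Fin.natAdd N j) := by
  rw [dot_lift]
  simp [ind]

theorem NA_nonneg' {A : Finset (Fin n → ℤ)} (hA : A.Nonempty) (h : ∀ v ∈ A, ∀ i, 0 ≤ v i)
    {x : Fin n → ℤ} (hx : ∀ i, 0 ≤ x i) : 0 ≤ NA A x := by
  obtain ⟨v, hv, e⟩ := NA_ex hA x
  rw [e]
  exact Finset.sum_nonneg fun i _ => mul_nonneg (hx i) (h v hv i)

/-- The map to the dual cone of the scaled configuration. -/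
noncomputable def up1 (A : Option (Fin k) → Finset (Fin N → ℤ)) (L : ℕ) (x : Fin N → ℤ) :
    Fin (N + k) → ℤ :=
  Fin.append x (fun j => L * NA (A none) x - NA (A (some j)) x)

theorem base_up1 (A : Option (Fin k) → Finset (Fin N → ℤ)) (L : ℕ) (x : Fin N → ℤ) :
    base (up1 A L x) = x := by
  funext i
  simp [base, up1]

theorem nat_up1 (A : Option (Fin k) → Finset (Fin N → ℤ)) (L : ℕ) (x : Fin N → ℤ) (j : Fin k) :
    up1 A L x (Fin.natAdd N j) = L * NA (A none) x - NA (A (some j)) x := by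
  simp [up1]

theorem smul_dot (x t : Fin n → ℤ) (L : ℤ) : x ⬝ᵥ (L • t) = L * (x ⬝ᵥ t) := by
  rw [dotProduct_smul, smul_eq_mul]

/-- The support function of the scaled configuration. -/
theorem NA_up1 {A : Option (Fin k) → Finset (Fin N → ℤ)} (hA : ∀ c, (A c).Nonempty) (L : ℕ)
    (x : Fin N → ℤ) : NA (scay A L) (up1 A L x) = L * NA (A none) x := by
  obtain ⟨t, ht, e⟩ := NA_ex (hA none) x
  have h1 : up1 A L x ⬝ᵥ lift none ((L : ℤ) • t) = L * NA (A none) x := by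
    rw [dot_lift_none, base_up1, smul_dot, e]
  rw [← h1]
  refine NA_eq (mem_scay.2 (Or.inl ⟨t, ht, rfl⟩)) fun v' hv' => ?_
  rw [h1]
  rcases mem_scay.1 hv' with ⟨t', ht', rfl⟩ | ⟨j, t', ht', rfl⟩
  · rw [dot_lift_none, base_up1, smul_dot]
    exact mul_le_mul_of_nonneg_left (NA_le x ht') (by positivity)
  · rw [dot_lift_some, base_up1, nat_up1]
    have := NA_le x ht'
    linarith

theorem up1_nonneg {A : Option (Fin k) → Finset (Fin N → ℤ)} (hg : Good A) {L : ℕ}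
    (hL : ∀ j, ∀ v ∈ A (some j), ∀ i, v i < L) {x : Fin N → ℤ} (hx : ∀ i, 0 ≤ x i)
    (i : Fin (N + k)) : 0 ≤ up1 A L x i := by
  refine Fin.addCases (fun i => ?_) (fun j => ?_) i
  · have : up1 A L x (Fin.castAdd k i) = x i := congrFun (base_up1 A L x) i
    rw [this]
    exact hx i
  · rw [nat_up1]
    obtain ⟨t, ht, e⟩ := NA_ex (hg.ne none) x
    obtain ⟨v, hv, hs⟩ := hg.cond t ht j
    have h1 := NA_le x hv
    have h2 : x ⬝ᵥ v ≤ L * (x ⬝ᵥ t) := by
      rw [← smul_dot]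
      unfold dotProduct
      refine Finset.sum_le_sum fun i _ => mul_le_mul_of_nonneg_left ?_ (hx i)
      rw [Pi.smul_apply, smul_eq_mul]
      by_cases h0 : t i = 0
      · rw [hs i h0, h0, mul_zero]
      · have h3 := hg.nonneg none t ht i
        have h4 : 1 ≤ t i := by omega
        have h5 := hL j v hv i
        nlinarith
    rw [e]
    linarith

theorem ne_zero_of_mem {δ : Finset (Fin n → ℤ)} (hδ : Indep δ) {a : Fin n → ℤ} (ha : a ∈ δ) :
    a ≠ 0 := by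
  rintro rfl
  have h1 := hδ.ne_zero (⟨0, ha⟩ : δ)
  exact h1 toR_zero

theorem NA_at_zero {A : Finset (Fin n → ℤ)} (hA : A.Nonempty) : NA A 0 = 0 := by
  obtain ⟨v, _, e⟩ := NA_ex hA 0
  rw [e, zero_dotProduct]

theorem up1_zero {A : Option (Fin k) → Finset (Fin N → ℤ)} (hA : ∀ c, (A c).Nonempty) (L : ℕ) :
    up1 A L 0 = 0 := by
  funext i
  refine Fin.addCases (fun i => ?_) (fun j => ?_) i
  · exact congrFun (base_up1 A L 0) i
  · rw [nat_up1, NA_at_zero (hA _), NA_at_zero (hA _)]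
    simp

theorem crd_coord {δ : Finset (Fin n → ℤ)} (hδ : Indep δ) {x : Fin n → ℤ} (hx : x ∈ opn δ)
    (i : Fin n) : (x i : ℝ) = ∑ a ∈ δ, crd δ (toR x) a * (a i : ℝ) := by
  have h1 := congrFun (opn_crd hδ hx).2 i
  rw [toR_apply, Finset.sum_apply] at h1
  rw [h1]
  refine Finset.sum_congr rfl fun a _ => ?_
  rw [Pi.smul_apply, smul_eq_mul, toR_apply]

theorem sum_lin {ι κ : Type} (S : Finset ι) (K : Finset κ) (w : ι → ℝ) (c : κ → ℝ)
    (g : ι → κ → ℝ) : ∑ i ∈ S, w i * ∑ a ∈ K, c a * g i a = ∑ a ∈ K, c a * ∑ i ∈ S, w i * g i a := by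
  simp only [Finset.mul_sum]
  rw [Finset.sum_comm]
  refine Finset.sum_congr rfl fun a _ => Finset.sum_congr rfl fun i _ => by ring

/-- The weight in `ℝ^N`. -/
noncomputable def f1 (A : Option (Fin k) → Finset (Fin N → ℤ)) (s : ℝ) (w : Fin (N + k) → ℝ)
    (x : Fin N → ℤ) : ℝ := (NA (A none) x : ℝ) * s + nuw A w x

/-- The weight in `ℝ^(N+k)`. -/
noncomputable def f2 (B : Finset (Fin n → ℤ)) (s' : ℝ) (w : Fin n → ℝ)
    (x : Fin n → ℤ) : ℝ := (NA B x : ℝ) * s' + w ⬝ᵥ toR x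

theorem f1_lin {A : Option (Fin k) → Finset (Fin N → ℤ)} {T : Fan N} (hT : ∀ c, Adapted (A c) T)
    (s : ℝ) (w : Fin (N + k) → ℝ) {δ : Finset (Fin N → ℤ)} (hδ : δ ∈ T.faces) {x : Fin N → ℤ}
    (hx : x ∈ opn δ) : f1 A s w x = ∑ a ∈ δ, crd δ (toR x) a * f1 A s w a := by
  have hi := face_indep hδ
  unfold f1 nuw
  simp only [crd_coord hi hx]
  simp only [NA_opn (hT _) hδ hx]
  have e1 := sum_lin (univ : Finset (Fin N)) δ (fun i => w (Fin.castAdd k i)) (crd δ (toR x))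
    (fun i a => (a i : ℝ))
  have e2 := sum_lin (univ : Finset (Fin k)) δ (fun j => w (Fin.natAdd N j)) (crd δ (toR x))
    (fun j a => (NA (A (some j)) a : ℝ))
  rw [e1, e2]
  simp only [mul_add, mul_sub, Finset.sum_add_distrib, Finset.sum_sub_distrib, Finset.sum_mul]
  simp only [mul_assoc]

theorem f2_lin {B : Finset (Fin n → ℤ)} {T : Fan n} (hT : Adapted B T)
    (s : ℝ) (w : Fin n → ℝ) {δ : Finset (Fin n → ℤ)} (hδ : δ ∈ T.faces) {x : Fin n → ℤ}
    (hx : x ∈ opn δ) : f2 B s w x = ∑ a ∈ δ, crd δ (toR x) a * f2 B s w a := by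
  have hi := face_indep hδ
  unfold f2 dotProduct
  simp only [toR_apply]
  simp only [crd_coord hi hx]
  have e1 := sum_lin (univ : Finset (Fin n)) δ w (crd δ (toR x)) (fun i a => (a i : ℝ))
  rw [NA_opn hT hδ hx, e1]
  simp only [mul_add, Finset.sum_add_distrib, Finset.sum_mul]
  simp only [mul_assoc]

theorem f2_up1 {A : Option (Fin k) → Finset (Fin N → ℤ)} (hA : ∀ c, (A c).Nonempty) (L : ℕ)
    {s s' : ℝ} {w : Fin (N + k) → ℝ} (hs : s = L * (s' + ∑ j, w (Fin.natAdd N j)))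
    (x : Fin N → ℤ) : f2 (scay A L) s' w (up1 A L x) = f1 A s w x := by
  unfold f2 f1 nuw
  rw [NA_up1 hA]
  have h1 : w ⬝ᵥ toR (up1 A L x) = ∑ i, w (Fin.castAdd k i) * (x i : ℝ) +
      ∑ j, w (Fin.natAdd N j) * ((L : ℝ) * (NA (A none) x : ℝ) - (NA (A (some j)) x : ℝ)) := by
    unfold dotProduct
    rw [Fin.sum_univ_add]
    congr 1
    · refine Finset.sum_congr rfl fun i _ => ?_
      rw [toR_apply]
      have : up1 A L x (Fin.castAdd k i) = x i := congrFun (base_up1 A L x) i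
      rw [this]
    · refine Finset.sum_congr rfl fun j _ => ?_
      rw [toR_apply, nat_up1]
      push_cast
      ring
  rw [h1, hs]
  simp only [mul_sub, Finset.sum_sub_distrib]
  have h2 : ∑ j : Fin k, w (Fin.natAdd N j) * ((L : ℝ) * (NA (A none) x : ℝ)) =
      (L : ℝ) * (NA (A none) x : ℝ) * ∑ j : Fin k, w (Fin.natAdd N j) := by
    rw [← Finset.sum_mul, mul_comm]
  rw [h2]
  push_cast
  ring

/-- The points of `τ` with their colours. -/
def I1 (τ : Finset (Fin (N + k) → ℤ)) : Type := {p : Option (Fin k) × (Fin N → ℤ) // lift p.1 p.2 ∈ τ}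

/-- The configurations and points of the first dual cone. -/
def B1 (A : Option (Fin k) → Finset (Fin N → ℤ)) (τ : Finset (Fin (N + k) → ℤ)) (p : I1 τ) :
    Finset (Fin N → ℤ) := A p.1.1

/-- The points. -/
def V1 (τ : Finset (Fin (N + k) → ℤ)) (p : I1 τ) : Fin N → ℤ := p.1.2

/-- The main data. -/
structure Dat (A : Option (Fin k) → Finset (Fin N → ℤ)) (L : ℕ)
    (τ τ' : Finset (Fin (N + k) → ℤ)) : Prop where
  good : Good A
  hL : 0 < L
  lt : ∀ j, ∀ v ∈ A (some j), ∀ i, v i < L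
  sub : τ ⊆ cay A univ
  occ : ∀ c, ∃ v, lift c v ∈ τ
  im : ∀ u', u' ∈ τ' ↔ (∃ t, lift none t ∈ τ ∧ u' = lift none ((L : ℤ) • t)) ∨
    ∃ j t, lift (some j) t ∈ τ ∧ u' = lift (some j) t

namespace Dat

variable {A : Option (Fin k) → Finset (Fin N → ℤ)} {L : ℕ} {τ τ' : Finset (Fin (N + k) → ℤ)}

theorem memA (h : Dat A L τ τ') {c : Option (Fin k)} {v : Fin N → ℤ} (hv : lift c v ∈ τ) :
    v ∈ A c := by
  obtain ⟨c', u, hu, e⟩ := mem_cay.1 (h.sub hv)
  obtain ⟨rfl, rfl⟩ := lift_inj e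
  exact hu

theorem mem_scay' (h : Dat A L τ τ') {u' : Fin (N + k) → ℤ} (hu : u' ∈ τ') : u' ∈ scay A L := by
  rcases (h.im u').1 hu with ⟨t, ht, rfl⟩ | ⟨j, t, ht, rfl⟩
  · exact mem_scay.2 (Or.inl ⟨t, h.memA ht, rfl⟩)
  · exact mem_scay.2 (Or.inr ⟨j, t, h.memA ht, rfl⟩)

/-- The second set of points. -/
def S2 (_ : Dat A L τ τ') : Set (Fin (N + k) → ℤ) :=
  SS (ι := {u // u ∈ τ'}) (fun _ => scay A L) (fun u => u.1)

/-- The first set of points. -/
def S1 (_ : Dat A L τ τ') : Set (Fin N → ℤ) := SS (B1 A τ) (V1 τ)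

theorem mem_S1 (h : Dat A L τ τ') {x : Fin N → ℤ} :
    x ∈ h.S1 ↔ (∀ i, 0 ≤ x i) ∧ ∀ c v, lift c v ∈ τ → x ⬝ᵥ v = NA (A c) x := by
  unfold S1 SS
  constructor
  · rintro ⟨h1, h2⟩
    exact ⟨h1, fun c v hv => h2 ⟨(c, v), hv⟩⟩
  · rintro ⟨h1, h2⟩
    exact ⟨h1, fun p => h2 p.1.1 p.1.2 p.2⟩

theorem mem_S2 (h : Dat A L τ τ') {y : Fin (N + k) → ℤ} :
    y ∈ h.S2 ↔ (∀ i, 0 ≤ y i) ∧ ∀ u ∈ τ', y ⬝ᵥ u = NA (scay A L) y := by
  unfold S2 SS
  constructor
  · rintro ⟨h1, h2⟩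
    exact ⟨h1, fun u hu => h2 ⟨u, hu⟩⟩
  · rintro ⟨h1, h2⟩
    exact ⟨h1, fun p => h2 p.1 p.2⟩

theorem up1_mem (h : Dat A L τ τ') {x : Fin N → ℤ} (hx : x ∈ h.S1) : up1 A L x ∈ h.S2 := by
  rw [mem_S1] at hx
  rw [mem_S2]
  refine ⟨up1_nonneg h.good h.lt hx.1, fun u' hu' => ?_⟩
  rw [NA_up1 h.good.ne]
  rcases (h.im u').1 hu' with ⟨t, ht, rfl⟩ | ⟨j, t, ht, rfl⟩
  · rw [dot_lift_none, base_up1, smul_dot, hx.2 none t ht]
  · rw [dot_lift_some, base_up1, nat_up1, hx.2 (some j) t ht]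
    ring

theorem NA_none (h : Dat A L τ τ') {y : Fin (N + k) → ℤ} (hy : y ∈ h.S2) :
    NA (scay A L) y = L * NA (A none) (base y) ∧ ∀ v, lift none v ∈ τ →
      base y ⬝ᵥ v = NA (A none) (base y) := by
  rw [mem_S2] at hy
  have key : ∀ v, lift none v ∈ τ → NA (scay A L) y = L * (base y ⬝ᵥ v) ∧
      base y ⬝ᵥ v = NA (A none) (base y) := by
    intro v hv
    have h1 := hy.2 (lift none ((L : ℤ) • v)) ((h.im _).2 (Or.inl ⟨v, hv, rfl⟩))
    rw [dot_lift_none, smul_dot] at h1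
    refine ⟨h1.symm, ?_⟩
    symm
    refine NA_eq (h.memA hv) fun t ht => ?_
    have h2 := NA_le y (mem_scay.2 (Or.inl ⟨t, ht, rfl⟩) : lift none ((L : ℤ) • t) ∈ scay A L)
    rw [dot_lift_none, smul_dot, ← h1] at h2
    have hL := h.hL
    exact le_of_mul_le_mul_left h2 (by exact_mod_cast hL)
  obtain ⟨t0, ht0⟩ := h.occ none
  refine ⟨?_, fun v hv => (key v hv).2⟩
  rw [(key t0 ht0).1, (key t0 ht0).2]

theorem NA_some (h : Dat A L τ τ') {y : Fin (N + k) → ℤ} (hy : y ∈ h.S2) (j : Fin k)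
    (v : Fin N → ℤ) (hv : lift (some j) v ∈ τ) :
    base y ⬝ᵥ v = NA (A (some j)) (base y) ∧
      y (Fin.natAdd N j) = L * NA (A none) (base y) - NA (A (some j)) (base y) := by
  have h0 := (h.NA_none hy).1
  rw [mem_S2] at hy
  have h1 := hy.2 (lift (some j) v) ((h.im _).2 (Or.inr ⟨j, v, hv, rfl⟩))
  rw [dot_lift_some] at h1
  have h2 : base y ⬝ᵥ v = NA (A (some j)) (base y) := by
    symm
    refine NA_eq (h.memA hv) fun t ht => ?_
    have h3 := NA_le y (mem_scay.2 (Or.inr ⟨j, t, ht, rfl⟩) : lift (some j) t ∈ scay A L)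
    rw [dot_lift_some, ← h1] at h3
    linarith
  refine ⟨h2, ?_⟩
  rw [← h2, ← h0, ← h1]
  ring

theorem base_mem (h : Dat A L τ τ') {y : Fin (N + k) → ℤ} (hy : y ∈ h.S2) : base y ∈ h.S1 := by
  rw [mem_S1]
  refine ⟨fun i => (h.mem_S2.1 hy).1 _, fun c v hv => ?_⟩
  cases c with
  | none => exact (h.NA_none hy).2 v hv
  | some j => exact (h.NA_some hy j v hv).1

theorem up1_base (h : Dat A L τ τ') {y : Fin (N + k) → ℤ} (hy : y ∈ h.S2) :
    up1 A L (base y) = y := by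
  funext i
  refine Fin.addCases (fun i => ?_) (fun j => ?_) i
  · exact congrFun (base_up1 A L (base y)) i
  · rw [nat_up1]
    obtain ⟨v, hv⟩ := h.occ (some j)
    exact (h.NA_some hy j v hv).2.symm

/-- The bijection. -/
noncomputable def eqv (h : Dat A L τ τ') : h.S1 ≃ h.S2 where
  toFun x := ⟨up1 A L x.1, h.up1_mem x.2⟩
  invFun y := ⟨base y.1, h.base_mem y.2⟩
  left_inv x := Subtype.ext (base_up1 A L x.1)
  right_inv y := Subtype.ext (h.up1_base y.2)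

theorem dual_mem2 (h : Dat A L τ τ') {a : Fin (N + k) → ℤ} (h0 : ∀ i, 0 ≤ a i)
    (h1 : ∀ u ∈ τ', a ⬝ᵥ u = NA (scay A L) a) : a ∈ h.S2 := h.mem_S2.2 ⟨h0, h1⟩

theorem dual_mem1 (h : Dat A L τ τ') {a : Fin N → ℤ} (h0 : ∀ i, 0 ≤ a i)
    (h1 : ∀ c v, lift c v ∈ τ → a ⬝ᵥ v = NA (A c) a) : a ∈ h.S1 := h.mem_S1.2 ⟨h0, h1⟩

end Dat

theorem card1 (hD : CardColl) {A : Option (Fin k) → Finset (Fin N → ℤ)} {L : ℕ}
    {τ τ' : Finset (Fin (N + k) → ℤ)} (h : Dat A L τ τ') (hτ : Indep τ)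
    (hc : cols τ = univ) {δ : Finset (Fin N → ℤ)} (hδ : Indep δ) (hd : InD (B1 A τ) (V1 τ) δ) :
    δ.card ≤ N + k + 1 - τ.card := by
  have h1 := hD N k τ hτ (fun v hv => by
    obtain ⟨c, u, _, e⟩ := mem_cay.1 (h.sub hv)
    exact ⟨c, u, e⟩)
  rw [hc, Finset.card_univ, Fintype.card_option, Fintype.card_fin] at h1
  have h2 : δ.card + dimC (coll τ) ≤ N := by
    unfold dimC
    refine card_add_le hδ _ fun x hx a ha => ?_
    induction hx using Submodule.span_induction with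
    | mem x hx =>
      obtain ⟨c, u, hu, v, hv, rfl⟩ := hx
      have key : ∀ u ∈ coll τ c, toR a ⬝ᵥ toR u = (NA (A c) a : ℝ) := by
        intro u hu
        unfold coll at hu
        rw [Finset.mem_image] at hu
        obtain ⟨z, hz, rfl⟩ := hu
        rw [Finset.mem_filter] at hz
        obtain ⟨c', t, _, e⟩ := mem_cay.1 (h.sub hz.1)
        have e2 : c' = c := by
          apply ind_inj
          funext j
          rw [← hz.2 j, e, lift_nat]
        subst e2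
        have e3 : base z = t := by
          funext i
          rw [e]
          exact lift_cast c' t i
        rw [e3, toR_dot]
        have h4 : lift c' t ∈ τ := by rw [← e]; exact hz.1
        have h5 : a ⬝ᵥ t = NA (A c') a := hd a ha ⟨(c', t), h4⟩
        rw [h5]
      rw [dotProduct_sub, key u hu, key v hv, sub_self]
    | zero => rw [dotProduct_zero]
    | add x y _ _ hx hy => rw [dotProduct_add, hx, hy, add_zero]
    | smul c x _ hx => rw [dotProduct_smul, hx, smul_zero]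
  omega

theorem card2 {B : Finset (Fin n → ℤ)} {τ : Finset (Fin n → ℤ)} (hτ : Indep τ) (hne : τ.Nonempty)
    {δ : Finset (Fin n → ℤ)} (hδ : Indep δ) (hd : ∀ a ∈ δ, ∀ u ∈ τ, a ⬝ᵥ u = NA B a) :
    δ.card ≤ n + 1 - τ.card := by
  obtain ⟨u₀, hu₀⟩ := hne
  have h1 := card_le_diff hτ (u₀ := u₀)
  have h2 := card_add_le hδ
    (Submodule.span ℝ {x : Fin n → ℝ | ∃ u ∈ τ, x = toR u - toR u₀}) (fun x hx a ha => by
      induction hx using Submodule.span_induction with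
      | mem x hx =>
        obtain ⟨u, hu, rfl⟩ := hx
        rw [dotProduct_sub, toR_dot, toR_dot, hd a ha u hu, hd a ha u₀ hu₀, sub_self]
      | zero => rw [dotProduct_zero]
      | add x y _ _ hx hy => rw [dotProduct_add, hx, hy, add_zero]
      | smul c x _ hx => rw [dotProduct_smul, hx, smul_zero])
  omega

/-- The comparison. -/
theorem main (h : ConeSum) (hD : CardColl) {A : Option (Fin k) → Finset (Fin N → ℤ)} {L : ℕ}
    {τ τ' Z : Finset (Fin (N + k) → ℤ)} (d : Dat A L τ τ') (hτ : Indep τ) (hτ' : Indep τ')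
    (hc : cols τ = univ) (hcard : τ'.card = τ.card) (hlt : τ.card ≤ N + k) (hZ : τ' ∩ Z = ∅)
    (hZ' : τ' \ Z = τ') (T : Fan N) (hT : ∀ c, Adapted (A c) T) (T' : Fan (N + k))
    (hT' : Adapted (scay A L) T') (s s' : ℝ) (w : Fin (N + k) → ℝ)
    (hs : s = L * (s' + ∑ j, w (Fin.natAdd N j)))
    (hp : ∀ a ∈ T.vert, a ≠ 0 → 0 < (NA (A none) a : ℝ) * s + nuw A w a)
    (hp' : ∀ a ∈ T'.vert, base a ≠ 0 → 0 < (NA (A none) (base a) : ℝ) * s + nuw A w (base a)) :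
    JsumC A T τ s w = Jsum (scay A L) Z T' τ' s' w := by
  classical
  have hne : τ'.Nonempty := by
    rw [← Finset.card_pos, hcard, Finset.card_pos]
    obtain ⟨v, hv⟩ := d.occ none
    exact ⟨_, hv⟩
  have t1 := gen h T (B1 A τ) (V1 τ) (fun i => hT _) (fun i => d.memA i.2) (f1 A s w)
    (N + k + 1 - τ.card) ?_ ?_ ?_
  rotate_left
  · intro δ hδ hd
    exact card1 hD d hτ hc (face_indep hδ) hd
  · intro δ hδ _ a ha
    exact hp a (Fan.IsFace.subset_vert T ((Fan.mem_faces T).1 hδ) ha)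
      (ne_zero_of_mem (face_indep hδ) ha)
  · intro δ hδ x hx
    exact f1_lin hT s w hδ hx
  have t2 := gen h T' (ι := {u // u ∈ τ'}) (fun _ => scay A L) (fun u => u.1)
    (fun _ => hT') (fun u => d.mem_scay' u.2) (f2 (scay A L) s' w) (N + k + 1 - τ.card) ?_ ?_ ?_
  rotate_left
  · intro δ hδ hd
    rw [← hcard]
    exact card2 hτ' hne (face_indep hδ) (fun a ha u hu => hd a ha ⟨u, hu⟩)
  · intro δ hδ hd a ha
    have hav := Fan.IsFace.subset_vert T' ((Fan.mem_faces T').1 hδ) ha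
    have h2 : a ∈ d.S2 := d.dual_mem2 (T'.vert_nonneg a hav) (fun u hu => hd a ha ⟨u, hu⟩)
    have h3 := d.up1_base h2
    have h4 : base a ≠ 0 := by
      intro e
      rw [e, up1_zero d.good.ne] at h3
      exact ne_zero_of_mem (face_indep hδ) ha h3.symm
    rw [← h3, f2_up1 d.good.ne L hs]
    exact hp' a hav h4
  · intro δ hδ x hx
    exact f2_lin hT' s' w hδ hx
  have e1 : (fun ε : ℝ => ε ^ (N + k + 1 - τ.card) * ∑' x : SS (B1 A τ) (V1 τ),
      Real.exp (-(ε * f1 A s w x.1))) = (fun ε : ℝ => ε ^ (N + k + 1 - τ.card) *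
      ∑' x : SS (ι := {u // u ∈ τ'}) (fun _ => scay A L) (fun u => u.1),
      Real.exp (-(ε * f2 (scay A L) s' w x.1))) := by
    funext ε
    congr 1
    have := Equiv.tsum_eq d.eqv (fun y : d.S2 => Real.exp (-(ε * f2 (scay A L) s' w y.1)))
    refine Eq.trans ?_ this
    refine tsum_congr fun x => ?_
    show _ = Real.exp (-(ε * f2 (scay A L) s' w (up1 A L x.1)))
    rw [f2_up1 d.good.ne L hs]
  rw [e1] at t1
  have e2 := tendsto_nhds_unique t1 t2
  unfold JsumC Jsum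
  have e3 : ∀ (δ : Finset (Fin N → ℤ)), InD (B1 A τ) (V1 τ) δ ↔ InDualC A τ δ := by
    intro δ
    constructor
    · intro h a ha c v hv
      exact h a ha ⟨(c, v), hv⟩
    · intro h a ha p
      exact h a ha p.1.1 p.1.2 p.2
  have e4 : ∀ (δ : Finset (Fin (N + k) → ℤ)),
      InD (ι := {u // u ∈ τ'}) (fun _ => scay A L) (fun u => u.1) δ ↔ InDual (scay A L) Z τ' δ := by
    intro δ
    unfold InDual
    rw [hZ, hZ']
    constructor
    · intro h a ha
      exact ⟨fun v hv => h a ha ⟨v, hv⟩, fun v hv => absurd hv (Finset.notMem_empty v)⟩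
    · intro h a ha p
      exact (h a ha).1 p.1 p.2
  refine (Finset.sum_congr ?_ fun δ _ => rfl).trans
    (e2.trans (Finset.sum_congr ?_ fun δ _ => rfl))
  · ext δ
    simp only [Finset.mem_filter]
    rw [e3]
    constructor
    · rintro ⟨a, b, c⟩
      exact ⟨a, c, by omega⟩
    · rintro ⟨a, b, c⟩
      exact ⟨a, by omega, b⟩
  · ext δ
    simp only [Finset.mem_filter]
    rw [e4, hcard]
    constructor
    · rintro ⟨a, b, c⟩
      exact ⟨a, by omega, b⟩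
    · rintro ⟨a, b, c⟩
      exact ⟨a, c, by omega⟩

/-- P3. -/
theorem jTransfer (h : ConeSum) (hD : CardColl) (hS : ScaleRel) : JTransfer := by
  classical
  intro N k A b L b' Z Φ' Φ hT T hTA T' hTA' s s' w hs hp hp' τ hτ hτA hcols
  obtain ⟨hinj, himg, hscay, hZiff, hdisj, hH, -, -, hfaces, -, -⟩ := hS N k A b L b' Z Φ' Φ hT
  have hτv : τ ⊆ Φ.vert := Fan.IsFace.subset_vert Φ ((Fan.mem_faces Φ).1 hτ)
  have hτ'f : τ.image (up L (Hset A Z)) ∈ Φ'.faces := (hfaces τ hτv).1 hτ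
  have hcard : (τ.image (up L (Hset A Z))).card = τ.card :=
    Finset.card_image_of_injOn fun u hu v hv e => hinj u (hτv hu) v (hτv hv) e
  have hnZ : ∀ u' ∈ τ.image (up L (Hset A Z)), u' ∉ Z := by
    intro u' hu' hz
    rw [Finset.mem_image] at hu'
    obtain ⟨u, hu, rfl⟩ := hu'
    rw [hZiff u (hτv hu)] at hz
    exact Finset.disjoint_left.1 hdisj (hτA hu) hz
  have hupn : ∀ t, lift none t ∈ τ → up L (Hset A Z) (lift none t) = lift none ((L : ℤ) • t) := by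
    intro t ht
    have h1 : lift none t ∉ Hset A Z := by
      rw [hH _ (hτA ht)]
      intro j
      rw [lift_nat]
      rfl
    unfold up
    rw [if_neg h1]
    funext i
    refine Fin.addCases (fun i => ?_) (fun j => ?_) i
    · rw [Pi.smul_apply, lift_cast, lift_cast, Pi.smul_apply]
    · rw [Pi.smul_apply, lift_nat, lift_nat]
      simp [ind]
  have hups : ∀ j t, lift (some j) t ∈ τ → up L (Hset A Z) (lift (some j) t) = lift (some j) t := by
    intro j t ht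
    have h1 : lift (some j) t ∈ Hset A Z := by
      by_contra h2
      rw [hH _ (hτA ht)] at h2
      have h3 := h2 j
      rw [lift_nat] at h3
      simp [ind] at h3
    unfold up
    rw [if_pos h1]
  have hmx : τ.card ≤ N + k := by
    obtain ⟨F, hF, hs⟩ := (Fan.mem_faces Φ).1 hτ
    exact (Finset.card_le_card hs).trans (Φ.mx_card F hF).le
  refine main h hD (Z := Z) ⟨hT.good, ?_, hT.lt, hτA, ?_, ?_⟩ (face_indep hτ) (face_indep hτ'f)
    hcols hcard hmx ?_ ?_ T hTA T' hTA' s s' w hs hp hp'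
  · have := hT.two_le
    omega
  · intro c
    have h1 : c ∈ cols τ := by rw [hcols]; exact Finset.mem_univ c
    unfold cols at h1
    rw [Finset.mem_filter] at h1
    obtain ⟨_, v, hv, hj⟩ := h1
    obtain ⟨c', t, _, e⟩ := mem_cay.1 (hτA hv)
    have e2 : c' = c := by
      apply ind_inj
      funext j
      rw [← hj j, e, lift_nat]
    refine ⟨t, ?_⟩
    rw [← e2, ← e]
    exact hv
  · intro u'
    rw [Finset.mem_image]
    constructor
    · rintro ⟨u, hu, rfl⟩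
      obtain ⟨c, t, _, rfl⟩ := mem_cay.1 (hτA hu)
      cases c with
      | none => exact Or.inl ⟨t, hu, hupn t hu⟩
      | some j => exact Or.inr ⟨j, t, hu, hups j t hu⟩
    · rintro (⟨t, ht, rfl⟩ | ⟨j, t, ht, rfl⟩)
      · exact ⟨_, ht, hupn t ht⟩
      · exact ⟨_, ht, hups j t ht⟩
  · ext u
    simp only [Finset.mem_inter, Finset.notMem_empty, iff_false, not_and]
    exact fun h => hnZ u h
  · ext u
    rw [Finset.mem_sdiff]
    exact ⟨fun h => h.1, fun h => ⟨h, hnZ u h⟩⟩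

end Mono.CI.H26P3
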